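import Mathlib
import Pool.Agent.J4H20.ST.St15

/-! Weinstein conjecture for contact-type flows with one sufficiently good approximate return,
uniformly for convergent sequences of contact forms, and for all contact forms near one whose flow
(up to reparametrization) is transversely recurrent: two closed orbits with disjoint images. -/

open scoped Topology ContDiff Manifold
open Set Filter Pool.Agent.H826R2.WStmt Pool.Agent.W671.RStmt Pool.Agent.J4H20.STStmt

noncomputable section

namespace Pool.Agent.Results.MP_e3ee0c_gt.ApproximateReturn

universe u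

/-- Let the contact forms `α' j` on a closed manifold converge to the contact form `α` in `C²` (or
the forms and their Reeb fields in `C¹`), let `h j` be smooth functions bounded from below by a
positive constant and let `Φ j` be the flow of `h j • R' j`. Suppose either that for every `j` there
is one return time function `τ j` such that the return maps converge uniformly to the identity and
have derivatives which are transversely bounded and bounded away from `-1`, or that the flow of
`g • R` is transversely recurrent for some positive smooth function `g`. Then for all large `j` the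
vector field `h j • R' j` has two periodic orbits with disjoint images. -/
theorem result {E : Type u} [NormedAddCommGroup E] [NormedSpace ℝ E] [FiniteDimensional ℝ E]
    (hdim : 1 < Module.finrank ℝ E)
    -- a closed manifold `M` with a contact form `α` and its Reeb field `R`
    {M : Type*} [TopologicalSpace M] [ChartedSpace E M] [IsManifold 𝓘(ℝ, E) ∞ M]
    [T2Space M] [CompactSpace M] [Nonempty M]
    (α : M → Cov E) (hα : IsContact α) (R : M → E) (hR : IsReeb α R)
    -- a sequence of contact forms and their Reeb fields which converges to them
    (α' : ℕ → M → Cov E) (hα' : ∀ j, IsContact (α' j)) (R' : ℕ → M → E)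
    (hR' : ∀ j, IsReeb (α' j) (R' j))
    (hconv : FormsTendToC2 α' α ∨ (FormsTendToC1 α' α ∧ FieldsTendToC1 R' R))
    -- vector fields `h j • R' j` and their flows
    (h : ℕ → M → ℝ) (hh : ∀ j, ContMDiff 𝓘(ℝ, E) 𝓘(ℝ, ℝ) ∞ (h j))
    (hpos : ∃ c > 0, ∀ j x, c ≤ h j x)
    (Φ : ℕ → M → ℝ → M) (hΦ : ∀ j, IsFlow (fun x => h j x • R' j x) (Φ j))
    -- an injective immersion, used to measure lengths
    {F : Type*} [NormedAddCommGroup F] [NormedSpace ℝ F]
    (e : M → F) (he : IsInjImmersion (E := E) e)
    -- either one return time function `τ j` for every `j`, or a recurrent flow of `g • R`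
    (hret : (∃ τ : ℕ → M → ℝ, Returning e (fun j x => h j x • R' j x) Φ τ) ∨
      ∃ (g : M → ℝ) (Ψ : M → ℝ → M) (σ : ℕ → M → ℝ), ContMDiff 𝓘(ℝ, E) 𝓘(ℝ, ℝ) ∞ g ∧
        (∀ x, 0 < g x) ∧ IsFlow (fun x => g x • R x) Ψ ∧ Recurrent e (fun x => g x • R x) Ψ σ) :
    -- there are two periodic orbits with disjoint images
    ∀ᶠ j in atTop, ∃ (c₁ c₂ : ℝ → M) (T₁ T₂ : ℝ),
      IsPeriodicOrbit (fun x => h j x • R' j x) c₁ T₁ ∧
      IsPeriodicOrbit (fun x => h j x • R' j x) c₂ T₂ ∧ Disjoint (range c₁) (range c₂) :=
  approx_or hdim α hα R hR α' hα' R' hR' hconv h hh hpos Φ hΦ e he hret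

end Pool.Agent.Results.MP_e3ee0c_gt.ApproximateReturn
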