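import Mathlib
import Pool.Agent.J4H20.CI.End

/-! Weinstein conjecture for contact forms with commuting first integrals, in every dimension: if
the Reeb flow is a one-parameter subgroup of a smooth action of `ℝ^m` by strict contactomorphisms,
then every compact component of the set of lowest-dimensional orbits which is weakly nondegenerate
contains a closed Reeb orbit, if these orbits have dimension at most three or if the fundamental
group of the component is virtually solvable. -/

open scoped Topology ContDiff Manifold
open Pool.Agent.H826R2.WStmt Pool.Agent.TH607.FxStmt Pool.Agent.J4H20.CIStmt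

namespace Pool.Agent.Results.MP_e3ee0c_gt.CommutingIntegrals

universe u v

theorem result
    {E : Type u} [NormedAddCommGroup E] [NormedSpace ℝ E] [FiniteDimensional ℝ E]
    -- a manifold `M` with a contact form `α` and its Reeb field `R`
    {M : Type v} [TopologicalSpace M] [ChartedSpace E M] [IsManifold 𝓘(ℝ, E) ∞ M] [T2Space M]
    (α : M → Cov E) (hα : IsContact α) (R : M → E) (hR : IsReeb α R)
    -- a smooth action of `ℝ^m` preserving `α`, which contains the Reeb flow
    {m : ℕ} (A : StrictAction α m) (κ₀ : Fin m → ℝ) (hκ : ∀ x, gen A κ₀ x = R x) :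
    -- (1) let `C` be a compact component of the set of points with orbits of dimension `≤ d`, at
    -- all points of which the orbit has dimension `d` and the action is weakly nondegenerate; if
    -- `d ≤ 3` or `π₁(C)` is virtually solvable, then `C` contains a periodic Reeb orbit
    (∀ (d : ℕ) (x₀ : M), orbitDim E A.act x₀ ≤ d → IsCompact (lowComponent A d x₀) →
      (∀ x ∈ lowComponent A d x₀, orbitDim E A.act x = d ∧ WeaklyNondegenerate A x) →
      (d ≤ 3 ∨ ∃ x, VirtuallySolvable (FundamentalGroup (lowComponent A d x₀) x)) →
      ∃ (c : ℝ → M) (T : ℝ), IsPeriodicOrbit R c T ∧ ∀ t, c t ∈ lowComponent A d x₀) ∧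
    -- (2) let `M` be closed, `m ≤ 4` (or some orbit of dimension at most three), and let the
    -- action be weakly nondegenerate at the points with orbits of lowest dimension: then the Reeb
    -- flow has a periodic orbit
    (CompactSpace M → Nonempty M → (m ≤ 4 ∨ ∃ x, orbitDim E A.act x ≤ 3) →
      (∀ x, (∀ y, orbitDim E A.act x ≤ orbitDim E A.act y) → WeaklyNondegenerate A x) →
      ∃ (c : ℝ → M) (T : ℝ), IsPeriodicOrbit R c T) :=
  ⟨fun d x₀ hx₀ hK hnd hd =>
      Pool.Agent.J4H20.CI.component Pool.Agent.J4H20.CI.parts hα R hR A κ₀ hκ d x₀ hx₀ hd hK hnd,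
    fun _ _ hm hnd =>
      Pool.Agent.J4H20.CI.closed Pool.Agent.J4H20.CI.parts hα R hR A κ₀ hκ hm hnd⟩

end Pool.Agent.Results.MP_e3ee0c_gt.CommutingIntegrals
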