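import Mathlib
import Pool.Agent.J4H20.HT.Fin

/-! Nonmeager orbits of the group of strict contactomorphisms. -/

open scoped Topology ContDiff Manifold
open Set Pool.Agent.H826R2 Pool.Agent.H826R2.WStmt Pool.Agent.W671 Pool.Agent.J4H20.HT

noncomputable section

namespace Pool.Agent.Results.MP_e3ee0c_gt.LargeStrictOrbits

universe u

variable {E : Type u} [NormedAddCommGroup E] [NormedSpace ℝ E]
  {M : Type*} [TopologicalSpace M] [ChartedSpace E M]

/-- `g` is a `C¹` diffeomorphism of `M` which preserves the one-form `α` and the vector field `R`. -/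
structure IsStrict (α : M → Cov E) (R : M → E) (g : M ≃ M) : Prop where
  smooth : ContMDiff 𝓘(ℝ, E) 𝓘(ℝ, E) 1 g
  smooth_symm : ContMDiff 𝓘(ℝ, E) 𝓘(ℝ, E) 1 g.symm
  form : pull (E := E) g α = α
  field : ∀ z, D (E := E) (E' := E) g z (R z) = R (g z)

/-- the orbit of `x` under the group of these diffeomorphisms -/
def orbit (α : M → Cov E) (R : M → E) (x : M) : Set M :=
  {y | ∃ g : M ≃ M, IsStrict α R g ∧ g x = y}

variable [FiniteDimensional ℝ E] [IsManifold 𝓘(ℝ, E) ∞ M]

/-- Let `α` be a contact form on a closed manifold with Reeb field `R`. If the orbit of a point `x`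
under the group of strict contactomorphisms is not meager, then all Reeb orbits in a neighbourhood `U`
of this orbit are periodic with the same minimal period `T`, and all Reeb orbits in its closure are
periodic with period `T`. -/
theorem result [T2Space M] [CompactSpace M] (α : M → Cov E) (hα : IsContact α)
    (R : M → E) (hR : IsReeb α R) (x : M) (hx : ¬ IsMeagre (orbit α R x)) :
    ∃ T > 0, ∃ U : Set M, IsOpen U ∧ orbit α R x ⊆ U ∧
      (∀ y ∈ U, ∃ c : ℝ → M, c 0 = y ∧ IsPeriodicOrbit R c T ∧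
        ∀ T', 0 < T' → c T' = y → T ≤ T') ∧
      ∀ y ∈ closure (orbit α R x), ∃ c : ℝ → M, c 0 = y ∧ IsPeriodicOrbit R c T := by
  obtain ⟨c, Fl, hF⟩ := exists_flow hα hR
  have ho : orbit α R x = {y | ∃ g ∈ strictC (toForm α) R, g x = y} := by
    ext y
    constructor
    · rintro ⟨g, hg, rfl⟩
      refine ⟨g, ⟨⟨hg.smooth, hg.smooth_symm, hg.field⟩, fun z u => ?_⟩, rfl⟩
      have h := congrFun hg.form z
      exact congrArg (fun a : Cov E => ev a u) h
    · rintro ⟨g, ⟨⟨h1, h2, h3⟩, h4⟩, rfl⟩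
      refine ⟨g, ⟨h1, h2, ?_, h3⟩, rfl⟩
      funext z
      exact ContinuousLinearMap.ext fun u => h4 z u
  rw [ho] at hx ⊢
  obtain ⟨T, hT, U, hU, hsub, h1, h2⟩ := finA c hF (strictC (toForm α) R)
    (fun g hg => hg.1.1) (fun g hg => cent_comm c hF hg.1.1 hg.1.2.2)
    (fun g hg z u => hg.2 z u) x hx
  refine ⟨T, hT, U, hU, hsub, fun y hy => ⟨Fl y, hF.zero y, MinPer.orbit hF hT (h1 y hy).1,
    (h1 y hy).2⟩, fun y hy => ⟨Fl y, hF.zero y, MinPer.orbit hF hT (h2 y hy)⟩⟩

end Pool.Agent.Results.MP_e3ee0c_gt.LargeStrictOrbits
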