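import Mathlib
import Pool.Agent.J4H20.HT.FinC

/-! Flows of contact type whose centralizer acts minimally. -/

open scoped Topology ContDiff Manifold
open Set Pool.Agent.H826R2 Pool.Agent.H826R2.WStmt Pool.Agent.W671 Pool.Agent.J4H20.HT

noncomputable section

namespace Pool.Agent.Results.MP_e3ee0c_gt.MinimalCentralizer

universe u

variable {E : Type u} [NormedAddCommGroup E] [NormedSpace ℝ E]
  {M : Type*} [TopologicalSpace M] [ChartedSpace E M]

/-- `g` is a `C¹` diffeomorphism of `M` which preserves the vector field `X`. -/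
structure Preserves (X : M → E) (g : M ≃ M) : Prop where
  smooth : ContMDiff 𝓘(ℝ, E) 𝓘(ℝ, E) 1 g
  smooth_symm : ContMDiff 𝓘(ℝ, E) 𝓘(ℝ, E) 1 g.symm
  field : ∀ z, D (E := E) (E' := E) g z (X z) = X (g z)

/-- The orbit of `x` under the group of all `C¹` diffeomorphisms preserving `X`. -/
def orbit (X : M → E) (x : M) : Set M := {y | ∃ g : M ≃ M, Preserves X g ∧ g x = y}

variable [FiniteDimensional ℝ E] [IsManifold 𝓘(ℝ, E) ∞ M]

/-- Let `α` be a contact form on a closed manifold with Reeb field `R`, let `h` be a positive smooth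
function and `X = h R`. If all orbits of the group of `C¹` diffeomorphisms preserving `X` are dense
and one of them is not meager, then all orbits of `X` are periodic with the same minimal period. -/
theorem result [T2Space M] [CompactSpace M] (α : M → Cov E) (hα : IsContact α)
    (R : M → E) (hR : IsReeb α R) (h : M → ℝ) (hh : ContMDiff 𝓘(ℝ, E) 𝓘(ℝ, ℝ) ∞ h)
    (hpos : ∀ x, 0 < h x)
    (hmin : ∀ x : M, Dense (orbit (fun z => h z • R z) x))
    (x₀ : M) (hx₀ : ¬ IsMeagre (orbit (fun z => h z • R z) x₀)) :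
    ∃ T > 0, ∀ x : M, ∃ c : ℝ → M, c 0 = x ∧ IsPeriodicOrbit (fun z => h z • R z) c T ∧
      ∀ T', 0 < T' → c T' = x → T ≤ T' := by
  have : Nonempty M := ⟨x₀⟩
  have : IsManifold 𝓘(ℝ, E) 1 M := IsManifold.of_le (n := ∞) (by simp)
  have horb : ∀ x : M, orbit (fun z => h z • R z) x =
      {y | ∃ g ∈ cent (E := E) (fun z => h z • R z), g x = y} := by
    intro x
    ext y
    constructor
    · rintro ⟨g, hg, hgx⟩
      exact ⟨g, ⟨hg.smooth, hg.smooth_symm, hg.field⟩, hgx⟩
    · rintro ⟨g, hg, hgx⟩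
      exact ⟨g, ⟨hg.1, hg.2.1, hg.2.2⟩, hgx⟩
  obtain ⟨Φ, hΦ, T, hT, hper⟩ := finC α hα R hR h hh hpos x₀ (by rw [← horb]; exact hx₀)
    (fun x => by rw [← horb]; exact hmin x)
  have hXs := WU.smooth_smul hh (WU.smooth_reeb (exists_flow hα hR).1)
  refine ⟨T, hT, fun x => ⟨Φ x, hΦ.zero x, ⟨hT, hΦ.integral x, fun t => ?_⟩, (hper x).2⟩⟩
  rw [add_comm, Pool.Agent.Helper186.flow_add hXs hΦ.zero hΦ.integral, (hper x).1]

end Pool.Agent.Results.MP_e3ee0c_gt.MinimalCentralizer
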